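import Pool.Agent.Y119.HG.Defs2
import Pool.Agent.Y118.CM.One

/-!
# Project HG (helper119), jobs HG-SYMROW and HG-GEN (helper730)
-/

set_option autoImplicit false
set_option maxHeartbeats 400000

open Matrix PowerSeries Pool.Agent.Y113 Pool.Agent.Y120.GF Pool.Agent.Y120.GH Pool.Agent.Y119.HY Pool.Agent.Y119.HZ
open Pool.Agent.Y118.CM

namespace Pool.Agent.Y730.HG

open Pool.Agent.Y119.HG

/-- a matrix which preserves a form also preserves the dual form -/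
lemma dual_form {ι : Type} [Fintype ι] [DecidableEq ι] {J g : Matrix ι ι ℂ} (hJ : J * J = -1) (h : gᵀ * J * g = J) :
    g * J * gᵀ = J := by
  have h1 : (-(J * gᵀ * J)) * g = 1 := by
    rw [Matrix.neg_mul, Matrix.mul_assoc, Matrix.mul_assoc, ← Matrix.mul_assoc gᵀ, h, hJ, neg_neg]
  have h2 : g * (-(J * gᵀ * J)) = 1 := mul_eq_one_comm.1 h1
  have h3 : g * J * gᵀ * J = -1 := by
    rw [Matrix.mul_neg] at h2
    rw [← h2, neg_neg]
    simp only [Matrix.mul_assoc]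
  calc g * J * gᵀ = -(g * J * gᵀ * (J * J)) := by rw [hJ, Matrix.mul_neg, Matrix.mul_one, neg_neg]
    _ = -(g * J * gᵀ * J * J) := by rw [← Matrix.mul_assoc]
    _ = J := by rw [h3, Matrix.neg_mul, Matrix.one_mul, neg_neg]

lemma hbeta {m : ℕ} {β : Fin m → ℚ} (hβ : ∀ j, ∀ a : ℤ, β j ≠ a) : ∀ j, ∀ l : ℕ, (l : ℚ) + β j ≠ 0 ∧ (l : ℚ) + -β j ≠ 0 := by
  intro j l
  constructor
  · intro h
    apply hβ j (-(l : ℤ))
    push_cast
    linear_combination h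
  · intro h
    apply hβ j (l : ℤ)
    push_cast
    linear_combination -h

lemma J0_eq (n : ℕ) : cm (J0 n) = Jn n ℂ := by
  ext i j
  rw [cm_apply]
  unfold J0 Jn
  rw [Matrix.of_apply, Matrix.of_apply]
  split_ifs
  · push_cast
    rfl
  · push_cast
    rfl

/-- the holomorphic part preserves the form -/
lemma Hf_form {n : ℕ} {Q : Polynomial ℚ} (hQ : QD n Q) {t : ℕ} (ht1 : 2 ≤ t) :
    (Hf (Hc n Q) (((1 / (t : ℝ) : ℝ)) : ℂ))ᵀ * cm (Jm n Q) * Hf (Hc n Q) (((1 / (t : ℝ) : ℝ)) : ℂ) = cm (Jm n Q) := by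
  have h1 := Yt_form hQ ht1
  have hN : cm (Am n) ^ n = 0 := Pool.Agent.Y119.HY.Ac_nil
  have hNJ : (cm (Am n)).transpose * cm (Jm n Q) + cm (Jm n Q) * cm (Am n) = 0 := Pool.Agent.Y119.HY.Jc_rel
  have i2 := E_isom hN hNJ ((Real.log t : ℝ) : ℂ)
  have h3 : Hf (Hc n Q) (((1 / (t : ℝ) : ℝ)) : ℂ) = Yt n Q t * E (cm (Am n)) ((Real.log t : ℝ) : ℂ) := by
    unfold Yt
    have h4 : E (cm (Am n)) (-((Real.log t : ℝ) : ℂ)) * E (cm (Am n)) ((Real.log t : ℝ) : ℂ) = 1 := by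
      have := E_mul_neg hN (-((Real.log t : ℝ) : ℂ))
      rwa [neg_neg] at this
    rw [Matrix.mul_assoc, h4, mul_one]
  rw [h3]
  exact isom_mul h1 i2

section
variable {m : ℕ} {β : Fin m → ℚ}

lemma DN_DI (hQ : QD (2 * m) (QB β)) : cm (DN β) * cm (DN β)⁻¹ = 1 := by
  rw [← cm_mul, Matrix.mul_nonsing_inv _ (DN_unit hQ), cm_one]

lemma DI_DN (hQ : QD (2 * m) (QB β)) : cm (DN β)⁻¹ * cm (DN β) = 1 := by
  rw [← cm_mul, Matrix.nonsing_inv_mul _ (DN_unit hQ), cm_one]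

/-- from the form `Jm` to the form `J0` -/
lemma conj_form (hQ : QD (2 * m) (QB β)) {H : Matrix (Fin (2 * m)) (Fin (2 * m)) ℂ}
    (h : Hᵀ * cm (Jm (2 * m) (QB β)) * H = cm (Jm (2 * m) (QB β))) :
    (cm (DN β) * H * cm (DN β)⁻¹)ᵀ * cm (J0 (2 * m)) * (cm (DN β) * H * cm (DN β)⁻¹) = cm (J0 (2 * m)) := by
  have h1 := form_relc (β := β)
  have h2 : (cm (DN β)⁻¹)ᵀ * ((cm (DN β))ᵀ * cm (J0 (2 * m)) * cm (DN β)) * cm (DN β)⁻¹ = cm (J0 (2 * m)) := by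
    calc (cm (DN β)⁻¹)ᵀ * ((cm (DN β))ᵀ * cm (J0 (2 * m)) * cm (DN β)) * cm (DN β)⁻¹ =
        (cm (DN β) * cm (DN β)⁻¹)ᵀ * cm (J0 (2 * m)) * (cm (DN β) * cm (DN β)⁻¹) := by
          rw [Matrix.transpose_mul]
          simp only [Matrix.mul_assoc]
      _ = _ := by rw [DN_DI hQ, Matrix.transpose_one, Matrix.one_mul, Matrix.mul_one]
  calc (cm (DN β) * H * cm (DN β)⁻¹)ᵀ * cm (J0 (2 * m)) * (cm (DN β) * H * cm (DN β)⁻¹) =
      (cm (DN β)⁻¹)ᵀ * (Hᵀ * ((cm (DN β))ᵀ * cm (J0 (2 * m)) * cm (DN β)) * H) * cm (DN β)⁻¹ := by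
        rw [Matrix.transpose_mul, Matrix.transpose_mul]
        simp only [Matrix.mul_assoc]
    _ = (cm (DN β)⁻¹)ᵀ * ((cm (DN β))ᵀ * cm (J0 (2 * m)) * cm (DN β)) * cm (DN β)⁻¹ := by
        rw [h1, mul_smul_comm, smul_mul_assoc, h]
    _ = _ := h2

/-- from the form `J0` to the form `Jm` -/
lemma conj_form' (hQ : QD (2 * m) (QB β)) {k : Matrix (Fin (2 * m)) (Fin (2 * m)) ℂ}
    (h : kᵀ * cm (J0 (2 * m)) * k = cm (J0 (2 * m))) :
    (cm (DN β)⁻¹ * k * cm (DN β))ᵀ * cm (Jm (2 * m) (QB β)) * (cm (DN β)⁻¹ * k * cm (DN β)) = cm (Jm (2 * m) (QB β)) := by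
  have h1 := form_relc (β := β)
  have h0 : cm (Jm (2 * m) (QB β)) = ((-1 : ℂ) ^ m) • ((cm (DN β))ᵀ * cm (J0 (2 * m)) * cm (DN β)) := by
    rw [form_relc, smul_smul, ← mul_pow]
    norm_num
  have h2 : (cm (DN β)⁻¹)ᵀ * ((cm (DN β))ᵀ * cm (J0 (2 * m)) * cm (DN β)) * cm (DN β)⁻¹ = cm (J0 (2 * m)) := by
    calc (cm (DN β)⁻¹)ᵀ * ((cm (DN β))ᵀ * cm (J0 (2 * m)) * cm (DN β)) * cm (DN β)⁻¹ =
        (cm (DN β) * cm (DN β)⁻¹)ᵀ * cm (J0 (2 * m)) * (cm (DN β) * cm (DN β)⁻¹) := by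
          rw [Matrix.transpose_mul]
          simp only [Matrix.mul_assoc]
      _ = _ := by rw [DN_DI hQ, Matrix.transpose_one, Matrix.one_mul, Matrix.mul_one]
  calc (cm (DN β)⁻¹ * k * cm (DN β))ᵀ * cm (Jm (2 * m) (QB β)) * (cm (DN β)⁻¹ * k * cm (DN β)) =
      (cm (DN β))ᵀ * (kᵀ * ((cm (DN β)⁻¹)ᵀ * cm (Jm (2 * m) (QB β)) * cm (DN β)⁻¹) * k) * cm (DN β) := by
        rw [Matrix.transpose_mul, Matrix.transpose_mul]
        simp only [Matrix.mul_assoc]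
    _ = (cm (DN β))ᵀ * (kᵀ * (((-1 : ℂ) ^ m) • cm (J0 (2 * m))) * k) * cm (DN β) := by
        rw [show (cm (DN β)⁻¹)ᵀ * cm (Jm (2 * m) (QB β)) * cm (DN β)⁻¹ = ((-1 : ℂ) ^ m) • cm (J0 (2 * m)) by
          rw [h0, mul_smul_comm, smul_mul_assoc, h2]]
    _ = _ := by
        rw [mul_smul_comm, smul_mul_assoc, h, mul_smul_comm, smul_mul_assoc, ← h0]

theorem t_SYM (hR : T_RM) : T_SYM := by
  intro m hm β hβ t ht
  have hQ : QD (2 * m) (QB β) := QD_QB hm (hbeta hβ)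
  obtain ⟨r1, r2, r3, r4⟩ := hR ℂ m
  have hg := dual_form (by rw [← cm_mul, J0_sq ⟨m, by ring⟩, cm_neg, cm_one]) (conj_form hQ (Hf_form hQ ht))
  rw [J0_eq] at hg
  set g := cm (DN β) * Hf (Hc (2 * m) (QB β)) (((1 / (t : ℝ) : ℝ)) : ℂ) * cm (DN β)⁻¹ with hgdef
  have hGt : Gt β t = Rm m ℂ * g * (Rm m ℂ)ᵀ := rfl
  have r5 : (Rm m ℂ)ᵀ * Om m ℂ * Rm m ℂ = Jn (2 * m) ℂ := by
    rw [← r3]
    calc (Rm m ℂ)ᵀ * (Rm m ℂ * Jn (2 * m) ℂ * (Rm m ℂ)ᵀ) * Rm m ℂ =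
        ((Rm m ℂ)ᵀ * Rm m ℂ) * Jn (2 * m) ℂ * ((Rm m ℂ)ᵀ * Rm m ℂ) := by simp only [Matrix.mul_assoc]
      _ = _ := by rw [r2, Matrix.one_mul, Matrix.mul_one]
  rw [hGt]
  calc Rm m ℂ * g * (Rm m ℂ)ᵀ * Om m ℂ * (Rm m ℂ * g * (Rm m ℂ)ᵀ)ᵀ =
      Rm m ℂ * (g * ((Rm m ℂ)ᵀ * Om m ℂ * Rm m ℂ) * gᵀ) * (Rm m ℂ)ᵀ := by
        rw [Matrix.transpose_mul, Matrix.transpose_mul, Matrix.transpose_transpose]
        simp only [Matrix.mul_assoc]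
    _ = _ := by rw [r5, hg, r3]

theorem t_ROW (hR : T_RM) : T_ROW := by
  intro m hm β hβ t ht C i
  have hQ : QD (2 * m) (QB β) := QD_QB hm (hbeta hβ)
  obtain ⟨r1, r2, r3, r4⟩ := hR ℂ m
  have hi := i.2
  have hi2 : (i : ℕ) < 2 * m := by omega
  have hdd : (fun c : Fin (2 * m) => (dd β i c : ℂ)) = (Pi.single (⟨i, hi2⟩ : Fin (2 * m)) (1 : ℂ)) ᵥ* cm (DN β) := by
    rw [← dd_row hQ hi2, vecMul_vecMul, DI_DN hQ, vecMul_one]
  rw [perr_C hQ (by omega) ht C, hdd]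
  have hCc : Cc β t C = cm (DN β)⁻¹ * Tt t C := by
    unfold Cc Tt
    rw [Matrix.mul_assoc]
  have hrow : Rm m ℂ (Sum.inl i) = Pi.single (⟨i, hi2⟩ : Fin (2 * m)) (1 : ℂ) := by
    funext l
    show (if (l : ℕ) = i then (1 : ℂ) else 0) = _
    rw [Pi.single_apply]
    have : ((l : ℕ) = i) ↔ l = ⟨i, hi2⟩ := by
      rw [Fin.ext_iff]
    simp only [this]
  have hrhs : Gt β t * (Rm m ℂ * Tt t C) = Rm m ℂ * (cm (DN β) * Hf (Hc (2 * m) (QB β)) (((1 / (t : ℝ) : ℝ)) : ℂ) *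
      (cm (DN β)⁻¹ * Tt t C)) := by
    unfold Gt
    calc _ = Rm m ℂ * (cm (DN β) * Hf (Hc (2 * m) (QB β)) (((1 / (t : ℝ) : ℝ)) : ℂ) *
      (cm (DN β)⁻¹ * (((Rm m ℂ)ᵀ * Rm m ℂ) * Tt t C))) := by simp only [Matrix.mul_assoc]
      _ = _ := by rw [r2, Matrix.one_mul]
  rw [hrhs, hCc]
  have hrr : ∀ X : Matrix (Fin (2 * m)) (Fin (2 * m)) ℂ, (Rm m ℂ * X) (Sum.inl i) = Rm m ℂ (Sum.inl i) ᵥ* X := fun X => rfl
  rw [hrr, hrow, vecMul_vecMul, vecMul_vecMul]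
  simp only [Matrix.mul_assoc]

/-- degrees do not grow under linear substitutions -/
lemma totalDegree_lin {K : Type} [Field K] {σ τ : Type} (f : σ → MvPolynomial τ K)
    (hm : ∀ x, (f x).totalDegree ≤ 1) (P : MvPolynomial σ K) : (MvPolynomial.aeval f P).totalDegree ≤ P.totalDegree := by
  classical
  rw [MvPolynomial.aeval_def, MvPolynomial.eval₂_eq]
  apply MvPolynomial.totalDegree_finsetSum_le
  intro d hd
  refine (MvPolynomial.totalDegree_mul _ _).trans ?_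
  have h1 : (algebraMap K (MvPolynomial τ K) (MvPolynomial.coeff d P)).totalDegree = 0 := MvPolynomial.totalDegree_C _
  rw [h1, zero_add]
  refine (MvPolynomial.totalDegree_finsetProd _ _).trans ?_
  calc ∑ x ∈ d.support, (f x ^ d x).totalDegree ≤ ∑ x ∈ d.support, d x := by
        apply Finset.sum_le_sum
        intro x _
        refine (MvPolynomial.totalDegree_pow _ _).trans ?_
        calc d x * (f x).totalDegree ≤ d x * 1 := Nat.mul_le_mul_left _ (hm x)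
          _ = d x := mul_one _
    _ ≤ P.totalDegree := MvPolynomial.le_totalDegree hd

theorem t_GEN (hR : T_RM) : T_GEN := by
  intro m hm β hβ D d
  have hβ' := hbeta hβ
  have hQ : QD (2 * m) (QB β) := QD_QB hm hβ'
  obtain ⟨r1, r2, r3, r4⟩ := hR ℂ m
  obtain ⟨t0, ht0⟩ := one_fibre hQ (fun i j => sdc_hps hβ' hQ i j) D d
  refine ⟨t0, fun t ht K hK hKD P hPd hP0 g hg => ?_⟩
  -- rational matrices
  let A : Matrix (S m) (Fin (2 * m)) ℚ := Rm m ℚ * DN β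
  let B : Matrix (Fin (2 * m)) (S m) ℚ := (DN β)⁻¹ * (Rm m ℚ)ᵀ
  have hRc : (Rm m ℚ).map (algebraMap ℚ ℂ) = Rm m ℂ := by
    ext s l
    rw [Matrix.map_apply]
    unfold Rm
    rw [Matrix.of_apply, Matrix.of_apply]
    rcases s with i | j
    · simp only
      split_ifs <;> simp
    · simp only
      split_ifs <;> simp
  have hA : A.map (algebraMap ℚ ℂ) = Rm m ℂ * cm (DN β) := by
    show (Rm m ℚ * DN β).map (algebraMap ℚ ℂ) = _
    rw [Matrix.map_mul, hRc]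
    rfl
  have hB : B.map (algebraMap ℚ ℂ) = cm (DN β)⁻¹ * (Rm m ℂ)ᵀ := by
    show ((DN β)⁻¹ * (Rm m ℚ)ᵀ).map (algebraMap ℚ ℂ) = _
    rw [Matrix.map_mul, Matrix.transpose_map, hRc]
    rfl
  -- the substitution
  let f : S m × S m → MvPolynomial (Fin (2 * m) × Fin (2 * m)) K := fun x =>
    ∑ i, ∑ j, MvPolynomial.C (algebraMap ℚ K (A x.1 i * B j x.2)) * MvPolynomial.X (i, j)
  have hf1 : ∀ x, (f x).totalDegree ≤ 1 := by
    intro x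
    refine MvPolynomial.totalDegree_finsetSum_le fun i _ => MvPolynomial.totalDegree_finsetSum_le fun j _ => ?_
    refine (MvPolynomial.totalDegree_mul _ _).trans ?_
    rw [MvPolynomial.totalDegree_C, MvPolynomial.totalDegree_X, zero_add]
  have hfe : ∀ (h : Matrix (Fin (2 * m)) (Fin (2 * m)) ℂ) (R : MvPolynomial (S m × S m) K),
      MvPolynomial.aeval (fun x => h x.1 x.2) (MvPolynomial.aeval f R) =
      MvPolynomial.aeval (fun x : S m × S m => ((Rm m ℂ * cm (DN β)) * h * (cm (DN β)⁻¹ * (Rm m ℂ)ᵀ)) x.1 x.2) R := by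
    intro h R
    rw [MvPolynomial.comp_aeval_apply]
    refine congrArg (fun z => MvPolynomial.aeval z R) (funext fun x => ?_)
    show MvPolynomial.aeval (fun x : Fin (2 * m) × Fin (2 * m) => h x.1 x.2) (∑ i, ∑ j,
      MvPolynomial.C (algebraMap ℚ K (A x.1 i * B j x.2)) * MvPolynomial.X (i, j)) = _
    rw [map_sum]
    simp only [map_sum, map_mul, MvPolynomial.aeval_C, MvPolynomial.aeval_X]
    rw [← hA, ← hB, Matrix.mul_apply]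
    simp only [Matrix.mul_apply, Matrix.map_apply, Finset.sum_mul]
    rw [Finset.sum_comm]
    refine Finset.sum_congr rfl fun j _ => Finset.sum_congr rfl fun i _ => ?_
    have e1 : ∀ q : ℚ, algebraMap K ℂ (algebraMap ℚ K q) = algebraMap ℚ ℂ q := fun q =>
      (IsScalarTower.algebraMap_apply ℚ K ℂ q).symm
    rw [e1, e1]
    ring
  have hP' : MvPolynomial.aeval (fun x => Hf (Hc (2 * m) (QB β)) (((1 / (t : ℝ) : ℝ)) : ℂ) x.1 x.2) (MvPolynomial.aeval f P) = 0 := by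
    rw [hfe, ← hP0]
    refine congrArg (fun z => MvPolynomial.aeval z P) (funext fun x => ?_)
    have : (Rm m ℂ * cm (DN β)) * Hf (Hc (2 * m) (QB β)) (((1 / (t : ℝ) : ℝ)) : ℂ) * (cm (DN β)⁻¹ * (Rm m ℂ)ᵀ) = Gt β t := by
      unfold Gt
      simp only [Matrix.mul_assoc]
    rw [this]
  -- the isometry
  have hgt : gᵀ * Om m ℂ * g = Om m ℂ := by
    have hOO : Om m ℂ * Om m ℂ = -1 := by
      rw [← r3]
      calc Rm m ℂ * Jn (2 * m) ℂ * (Rm m ℂ)ᵀ * (Rm m ℂ * Jn (2 * m) ℂ * (Rm m ℂ)ᵀ) =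
          Rm m ℂ * (Jn (2 * m) ℂ * ((Rm m ℂ)ᵀ * Rm m ℂ) * Jn (2 * m) ℂ) * (Rm m ℂ)ᵀ := by simp only [Matrix.mul_assoc]
        _ = _ := by rw [r2, Matrix.mul_one, r4, Matrix.mul_neg, Matrix.mul_one, Matrix.neg_mul, r1]
    have h1 := dual_form (J := Om m ℂ) (g := gᵀ) hOO (by rw [Matrix.transpose_transpose]; exact hg)
    rwa [Matrix.transpose_transpose] at h1
  set k := (Rm m ℂ)ᵀ * g * Rm m ℂ with hk
  have hkf : kᵀ * cm (J0 (2 * m)) * k = cm (J0 (2 * m)) := by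
    rw [J0_eq, hk]
    calc ((Rm m ℂ)ᵀ * g * Rm m ℂ)ᵀ * Jn (2 * m) ℂ * ((Rm m ℂ)ᵀ * g * Rm m ℂ) =
        (Rm m ℂ)ᵀ * (gᵀ * (Rm m ℂ * Jn (2 * m) ℂ * (Rm m ℂ)ᵀ) * g) * Rm m ℂ := by
          rw [Matrix.transpose_mul, Matrix.transpose_mul, Matrix.transpose_transpose]
          simp only [Matrix.mul_assoc]
      _ = (Rm m ℂ)ᵀ * (Rm m ℂ * Jn (2 * m) ℂ * (Rm m ℂ)ᵀ) * Rm m ℂ := by rw [r3, hgt]
      _ = ((Rm m ℂ)ᵀ * Rm m ℂ) * Jn (2 * m) ℂ * ((Rm m ℂ)ᵀ * Rm m ℂ) := by simp only [Matrix.mul_assoc]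
      _ = _ := by rw [r2, Matrix.one_mul, Matrix.mul_one]
  have h5 := ht0 t ht K hK hKD (MvPolynomial.aeval f P) ((totalDegree_lin f hf1 P).trans hPd) hP' _ (conj_form' hQ hkf)
  rw [hfe] at h5
  rw [← h5]
  refine congrArg (fun z => MvPolynomial.aeval z P) (funext fun x => ?_)
  have : Rm m ℂ * cm (DN β) * (cm (DN β)⁻¹ * k * cm (DN β)) * (cm (DN β)⁻¹ * (Rm m ℂ)ᵀ) = g := by
    calc Rm m ℂ * cm (DN β) * (cm (DN β)⁻¹ * k * cm (DN β)) * (cm (DN β)⁻¹ * (Rm m ℂ)ᵀ) =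
        Rm m ℂ * ((cm (DN β) * cm (DN β)⁻¹) * k * (cm (DN β) * cm (DN β)⁻¹)) * (Rm m ℂ)ᵀ := by
          simp only [Matrix.mul_assoc]
      _ = (Rm m ℂ * (Rm m ℂ)ᵀ) * g * (Rm m ℂ * (Rm m ℂ)ᵀ) := by
          rw [DN_DI hQ, Matrix.one_mul, Matrix.mul_one, hk]
          simp only [Matrix.mul_assoc]
      _ = _ := by rw [r1, Matrix.one_mul, Matrix.mul_one]
  rw [this]

end

end Pool.Agent.Y730.HG
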